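import Pool.Agent.H77.EV.Push
import Pool.Agent.H16.RB.Cls

/-!
# EV Cls (helper77): copy of Pool/Agent/H16/RB/Cls.lean for `2 s + 1 ≤ p` (`push_const'`)
-/

set_option autoImplicit false

namespace Pool.Agent.H77.EV

open Finset Pool.Agent.H16.RB

private theorem cls_fibre {p s : ℕ} [Fact p.Prime] {X G : Type*}
    [AddCommGroup G] [Finite G] (y : X → G) (S : Finset X)
    (hS : S.card ≤ p ^ s) (x : X) (hx : x ∈ S) :
    ∃ τ : Fin s → (G →+ ZMod p), (S.filter fun x' => ∀ i, τ i (y x') = τ i (y x)) =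
      cls p y S (y x) := by
  classical
  have hT : (S.filter fun x' => ¬ ∀ l : G →+ ZMod p, l (y x') = l (y x)).card < p ^ s := by
    refine lt_of_lt_of_le (Finset.card_lt_card ?_) hS
    refine ⟨Finset.filter_subset _ _, fun h => ?_⟩
    have := (Finset.mem_filter.1 (h hx)).2
    exact this fun l => rfl
  obtain ⟨τ, -, hτ⟩ := iso (p := p) (0 : G) (fun x' => y x' - y x) s
    (S.filter fun x' => ¬ ∀ l : G →+ ZMod p, l (y x') = l (y x)) hT (by
      intro x' hx'
      have h1 := (Finset.mem_filter.1 hx').2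
      push Not at h1
      obtain ⟨l, hl⟩ := h1
      exact ⟨l, map_zero l, by rw [map_sub]; exact sub_ne_zero.2 hl⟩)
  refine ⟨τ, ?_⟩
  ext x'
  simp only [cls, Finset.mem_filter]
  constructor
  · rintro ⟨h1, h2⟩
    refine ⟨h1, ?_⟩
    by_contra h3
    obtain ⟨i, hi⟩ := hτ x' (Finset.mem_filter.2 ⟨h1, h3⟩)
    rw [map_sub, h2 i, sub_self] at hi
    exact hi rfl
  · rintro ⟨h1, h2⟩
    exact ⟨h1, fun i => h2 (τ i)⟩

theorem cls_dvd {p s : ℕ} [Fact p.Prime] (hs : 1 ≤ s) (h3 : 2 * s + 1 ≤ p) {X G : Type*}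
    [AddCommGroup G] [Finite G] (y : X → G) (S : Finset X)
    (hK : Kills p y S (s * (p - 1) - s + 1)) (hS : S.card < p ^ s) (x : X) (hx : x ∈ S) :
    p ∣ (cls p y S (y x)).card := by
  obtain ⟨τ, hτ⟩ := cls_fibre (p := p) (s := s) y S hS.le x hx
  rcases push_const' hs h3 y S hK hS.le τ with h | ⟨h, -⟩
  · have h1 := h fun i => τ i (y x)
    rw [hτ] at h1
    exact h1
  · exact absurd h hS.ne

theorem cls_dvd' {p s : ℕ} [Fact p.Prime] (hs : 1 ≤ s) (h3 : 2 * s + 1 ≤ p) {X G : Type*}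
    [AddCommGroup G] [Finite G] (y : X → G) (S : Finset X)
    (hK : Kills p y S (s * (p - 1) - s + 1)) (hS : S.card ≤ p ^ s) (z : X) (hz : z ∈ S)
    (h2 : 2 ≤ (cls p y S (y z)).card) (x : X) (hx : x ∈ S) : p ∣ (cls p y S (y x)).card := by
  obtain ⟨τ, hτ⟩ := cls_fibre (p := p) (s := s) y S hS x hx
  rcases push_const' hs h3 y S hK hS τ with h | ⟨-, h⟩
  · have h1 := h fun i => τ i (y x)
    rw [hτ] at h1
    exact h1
  · exfalso
    have h1 := h fun i => τ i (y z)
    have h4 : cls p y S (y z) ⊆ S.filter fun x' => ∀ i, τ i (y x') = τ i (y z) := by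
      intro x' hx'
      simp only [cls, Finset.mem_filter] at hx' ⊢
      exact ⟨hx'.1, fun i => hx'.2 (τ i)⟩
    have h5 := Finset.card_le_card h4
    rw [h1] at h5
    omega

end Pool.Agent.H77.EV
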