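import Pool.Agent.H77.EV.T2b
import Pool.Agent.H88.EV.Defs

/-!
# EV Dis: copy of Pool/Agent/H88/EV/Dis.lean (see the comments there) for `2 s + 1 ≤ p`
-/

set_option autoImplicit false

namespace Pool.Agent.H77.EV

open Finset Pool.Agent.H16.RB Pool.Agent.H88.Pl Pool.Agent.H88.EV
open scoped Classical

variable {p s t u : ℕ} [Fact p.Prime] {H K : Type*} [AddCommGroup H] [AddCommGroup K] [Fintype H]
  [Fintype K] {f : H → K}

/-! ### kernels of functionals on subgroups -/

private theorem dis_fib_le {p : ℕ} {G : Type*} [AddCommGroup G] [Fintype G] (B : AddSubgroup G)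
    (φ : G →+ ZMod p) (c : ZMod p) :
    (univ.filter fun g : G => g ∈ B ∧ φ g = c).card ≤
      (univ.filter fun g : G => g ∈ B ∧ φ g = 0).card := by
  rcases (univ.filter fun g : G => g ∈ B ∧ φ g = c).eq_empty_or_nonempty with h | ⟨a, ha⟩
  · rw [h, card_empty]
    exact Nat.zero_le _
  · rw [mem_filter] at ha
    refine card_le_card_of_injOn (fun g => g - a) ?_ ?_
    · intro g hg
      rw [mem_coe, mem_filter] at hg ⊢
      refine ⟨mem_univ _, B.sub_mem hg.2.1 ha.2.1, ?_⟩
      rw [map_sub, hg.2.2, ha.2.2, sub_self]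
    · intro g _ g' _ h
      exact sub_left_injective h

private theorem dis_fib_ge {p : ℕ} [Fact p.Prime] {G : Type*} [AddCommGroup G] [Fintype G]
    (B : AddSubgroup G) (φ : G →+ ZMod p) (h : ∃ g ∈ B, φ g ≠ 0) (c : ZMod p) :
    (univ.filter fun g : G => g ∈ B ∧ φ g = 0).card ≤
      (univ.filter fun g : G => g ∈ B ∧ φ g = c).card := by
  obtain ⟨a, ha, hφ⟩ := h
  have hb : (c * (φ a)⁻¹).val • a ∈ B := B.nsmul_mem ha _
  have hc : φ ((c * (φ a)⁻¹).val • a) = c := by
    rw [map_nsmul, nsmul_eq_mul, ZMod.natCast_val, ZMod.cast_id, mul_assoc, inv_mul_cancel₀ hφ,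
      mul_one]
  refine card_le_card_of_injOn (fun g => g + (c * (φ a)⁻¹).val • a) ?_ ?_
  · intro g hg
    rw [mem_coe, mem_filter] at hg ⊢
    refine ⟨mem_univ _, B.add_mem hg.2.1 hb, ?_⟩
    rw [map_add, hg.2.2, hc, zero_add]
  · intro g _ g' _ h
    exact add_left_injective _ h

private theorem dis_sum {p : ℕ} [Fact p.Prime] {G : Type*} [AddCommGroup G] [Fintype G]
    (B : AddSubgroup G) (φ : G →+ ZMod p) :
    (univ.filter fun g : G => g ∈ B).card =
      ∑ c : ZMod p, (univ.filter fun g : G => g ∈ B ∧ φ g = c).card := by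
  rw [card_eq_sum_card_fiberwise (f := fun g : G => φ g) (t := (univ : Finset (ZMod p)))
    (fun _ _ => mem_coe.2 (mem_univ _))]
  refine sum_congr rfl fun c _ => ?_
  rw [filter_filter]

private theorem dis_ker_le {p : ℕ} [Fact p.Prime] {G : Type*} [AddCommGroup G] [Fintype G]
    (B : AddSubgroup G) (φ : G →+ ZMod p) :
    (univ.filter fun g : G => g ∈ B).card ≤
      p * (univ.filter fun g : G => g ∈ B ∧ φ g = 0).card := by
  rw [dis_sum B φ]
  refine (sum_le_card_nsmul univ _ _ fun c _ => dis_fib_le B φ c).trans ?_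
  rw [card_univ, ZMod.card, smul_eq_mul]

private theorem dis_ker_eq {p : ℕ} [Fact p.Prime] {G : Type*} [AddCommGroup G] [Fintype G]
    (B : AddSubgroup G) (φ : G →+ ZMod p) (h : ∃ g ∈ B, φ g ≠ 0) :
    p * (univ.filter fun g : G => g ∈ B ∧ φ g = 0).card =
      (univ.filter fun g : G => g ∈ B).card := by
  refine le_antisymm ?_ (dis_ker_le B φ)
  rw [dis_sum B φ]
  have h1 := card_nsmul_le_sum (univ : Finset (ZMod p))
    (fun c => (univ.filter fun g : G => g ∈ B ∧ φ g = c).card)
    (univ.filter fun g : G => g ∈ B ∧ φ g = 0).card (fun c _ => dis_fib_ge B φ h c)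
  rwa [card_univ, ZMod.card, smul_eq_mul] at h1

private theorem dis_ker_le' {p : ℕ} [Fact p.Prime] {G : Type*} [AddCommGroup G] [Fintype G]
    (B : AddSubgroup G) (φ : G →+ ZMod p) (S T : Finset G) (hS : ∀ g, g ∈ S ↔ g ∈ B)
    (hT : ∀ g, g ∈ T ↔ g ∈ B ∧ φ g = 0) : S.card ≤ p * T.card := by
  have h1 : S = univ.filter fun g : G => g ∈ B := by
    ext g
    rw [hS, mem_filter]
    exact ⟨fun h => ⟨mem_univ _, h⟩, fun h => h.2⟩
  have h2 : T = univ.filter fun g : G => g ∈ B ∧ φ g = 0 := by
    ext g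
    rw [hT, mem_filter]
    exact ⟨fun h => ⟨mem_univ _, h⟩, fun h => h.2⟩
  rw [h1, h2]
  exact dis_ker_le B φ

private theorem dis_ker_eq' {p : ℕ} [Fact p.Prime] {G : Type*} [AddCommGroup G] [Fintype G]
    (B : AddSubgroup G) (φ : G →+ ZMod p) (S T : Finset G) (hS : ∀ g, g ∈ S ↔ g ∈ B)
    (hT : ∀ g, g ∈ T ↔ g ∈ B ∧ φ g = 0) (h : ∃ g ∈ B, φ g ≠ 0) : p * T.card = S.card := by
  have h1 : S = univ.filter fun g : G => g ∈ B := by
    ext g
    rw [hS, mem_filter]
    exact ⟨fun h => ⟨mem_univ _, h⟩, fun h => h.2⟩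
  have h2 : T = univ.filter fun g : G => g ∈ B ∧ φ g = 0 := by
    ext g
    rw [hT, mem_filter]
    exact ⟨fun h => ⟨mem_univ _, h⟩, fun h => h.2⟩
  rw [h1, h2]
  exact dis_ker_eq B φ h

/-! ### pairs in the same slice with the same value of the functional -/

private theorem dis_pairs (l : H × K →+ ZMod p) :
    ∑ v ∈ PG p H K, ∑ c : ZMod p, ((sl p f v).filter fun x => l (gr f x) = c).card ^ 2 =
      (univ.filter fun z : H × H =>
        p • gr f z.1 = p • gr f z.2 ∧ l (gr f z.1) = l (gr f z.2)).card := by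
  have h0 := Pool.Agent.H16.RB.sum_sq (fun x : H => ((p • gr f x, l (gr f x)) : (H × K) × ZMod p))
  have h1 : (univ.filter fun z : H × H =>
      p • gr f z.1 = p • gr f z.2 ∧ l (gr f z.1) = l (gr f z.2)).card =
      ∑ v : (H × K) × ZMod p,
        (univ.filter fun x => ((p • gr f x, l (gr f x)) : (H × K) × ZMod p) = v).card ^ 2 := by
    refine Eq.trans ?_ (h0.symm.trans ?_)
    · refine congrArg Finset.card ?_
      ext z
      simp only [mem_filter, mem_univ, true_and, Prod.mk.injEq]
    · refine sum_congr rfl fun v _ => ?_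
      refine congrArg (fun S : Finset H => S.card ^ 2) ?_
      ext z
      simp only [mem_filter]
  rw [h1, Fintype.sum_prod_type]
  have h2 : ∀ v : H × K, ∀ c : ZMod p,
      (univ.filter fun x => ((p • gr f x, l (gr f x)) : (H × K) × ZMod p) = (v, c)).card =
        ((sl p f v).filter fun x => l (gr f x) = c).card := by
    intro v c
    refine congrArg Finset.card ?_
    ext x
    simp only [sl, mem_filter, mem_univ, true_and, Prod.mk.injEq]
  simp only [h2]
  refine sum_subset (subset_univ _) fun v _ hv => ?_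
  have h3 : sl p f v = ∅ := by
    refine filter_eq_empty_iff.2 fun x _ hx => hv ?_
    exact mem_image.2 ⟨gr f x, mem_univ _, hx⟩
  refine sum_eq_zero fun c _ => ?_
  rw [h3, filter_empty, card_empty]
  rfl

private theorem dis_off (D : D2 p s t u f) (l : H × K →+ ZMod p) :
    (univ.filter fun z : H × H =>
      p • gr f z.1 = p • gr f z.2 ∧ l (gr f z.1) = l (gr f z.2)).card =
      p ^ (2 * s) + (univ.filter fun g : H × K => g.1 ≠ 0 ∧ (p • g = 0 ∧ l g = 0)).card := by
  have h2 := card_filter_add_card_filter_not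
    (s := univ.filter fun z : H × H =>
      p • gr f z.1 = p • gr f z.2 ∧ l (gr f z.1) = l (gr f z.2)) (fun z : H × H => z.1 = z.2)
  have h3 : ((univ.filter fun z : H × H =>
      p • gr f z.1 = p • gr f z.2 ∧ l (gr f z.1) = l (gr f z.2)).filter
      fun z : H × H => z.1 = z.2).card = p ^ (2 * s) := by
    rw [← D.hH, ← card_univ]
    symm
    refine card_bij (fun x _ => (x, x)) ?_ ?_ ?_
    · intro x _
      simp
    · intro x _ y _ h
      exact (Prod.ext_iff.1 h).1
    · intro z hz
      have := (mem_filter.1 hz).2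
      exact ⟨z.1, mem_univ _, Prod.ext rfl this⟩
  have h4 : ((univ.filter fun z : H × H =>
      p • gr f z.1 = p • gr f z.2 ∧ l (gr f z.1) = l (gr f z.2)).filter
      fun z : H × H => ¬ z.1 = z.2).card =
      (univ.filter fun g : H × K => g.1 ≠ 0 ∧ (p • g = 0 ∧ l g = 0)).card := by
    have h0 := pair_count f D.hf fun g => p • g = 0 ∧ l g = 0
    have h0' : (univ.filter fun g : H × K => g.1 ≠ 0 ∧ (p • g = 0 ∧ l g = 0)).card =
        (univ.filter fun z : H × H => z.1 ≠ z.2 ∧
          (p • (gr f z.1 - gr f z.2) = 0 ∧ l (gr f z.1 - gr f z.2) = 0)).card := by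
      refine Eq.trans ?_ (h0.symm.trans ?_)
      · refine congrArg Finset.card ?_
        ext z
        simp only [mem_filter]
      · refine congrArg Finset.card ?_
        ext z
        simp only [mem_filter]
    rw [h0']
    refine congrArg Finset.card ?_
    ext z
    simp only [mem_filter, mem_univ, true_and, ne_eq, smul_sub, map_sub, sub_eq_zero]
    exact and_comm
  omega

private theorem dis_split (l : H × K →+ ZMod p) :
    (univ.filter fun g : H × K => g.1 ≠ 0 ∧ (p • g = 0 ∧ l g = 0)).card +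
      (univ.filter fun k : K => p • k = 0 ∧ l (0, k) = 0).card =
      (univ.filter fun g : H × K => p • g = 0 ∧ l g = 0).card := by
  have h5 := card_filter_add_card_filter_not
    (s := univ.filter fun g : H × K => p • g = 0 ∧ l g = 0) (fun g : H × K => g.1 = 0)
  have h6 : ((univ.filter fun g : H × K => p • g = 0 ∧ l g = 0).filter
      fun g : H × K => ¬ g.1 = 0).card =
      (univ.filter fun g : H × K => g.1 ≠ 0 ∧ (p • g = 0 ∧ l g = 0)).card := by
    refine congrArg Finset.card ?_
    ext g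
    simp only [mem_filter, mem_univ, true_and, ne_eq]
    exact and_comm
  have h8 : ((univ.filter fun g : H × K => p • g = 0 ∧ l g = 0).filter
      fun g : H × K => g.1 = 0).card =
      (univ.filter fun k : K => p • k = 0 ∧ l (0, k) = 0).card := by
    refine card_bij (fun g _ => g.2) ?_ ?_ ?_
    · intro g hg
      rw [mem_filter, mem_filter] at hg
      rw [mem_filter]
      have e : ((0 : H), g.2) = g := Prod.ext hg.2.symm rfl
      refine ⟨mem_univ _, (Prod.ext_iff.1 hg.1.2.1).2, ?_⟩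
      rw [e]
      exact hg.1.2.2
    · intro g hg g' hg' h
      have e1 := (mem_filter.1 hg).2
      have e2 := (mem_filter.1 hg').2
      exact Prod.ext (e1.trans e2.symm) h
    · intro k hk
      have hk2 := (mem_filter.1 hk).2
      refine ⟨(0, k), ?_, rfl⟩
      rw [mem_filter, mem_filter]
      exact ⟨⟨mem_univ _, Prod.ext (smul_zero p) hk2.1, hk2.2⟩, rfl⟩
  omega

private theorem dis_cardG (D : D2 p s t u f) :
    (univ.filter fun g : H × K => p • g = 0).card = p ^ (3 * s) := by
  have e : (univ.filter fun g : H × K => p • g = 0) =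
      (univ.filter fun h : H => p • h = p • (0 : H)) ×ˢ
        (univ.filter fun k : K => p • k = p • (0 : K)) := by
    ext g
    simp only [mem_filter, mem_univ, true_and, mem_product, smul_zero, Prod.ext_iff,
      Prod.smul_fst, Prod.smul_snd, Prod.fst_zero, Prod.snd_zero]
  rw [e, card_product, D.card_pH, D.card_pK, ← pow_add]
  congr 1
  have := D.hut
  omega

private theorem dis_kerG (D : D2 p s t u f) (l : H × K →+ ZMod p) (hl : ¬ Van l) :
    p * (univ.filter fun g : H × K => p • g = 0 ∧ l g = 0).card = p ^ (3 * s) := by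
  have h1 : ∃ g ∈ (nsmulAddMonoidHom (α := H × K) p).ker, l g ≠ 0 := by
    unfold Van at hl
    push Not at hl
    obtain ⟨g, hg, hg'⟩ := hl
    exact ⟨g, hg, hg'⟩
  rw [← dis_cardG D]
  refine dis_ker_eq' (nsmulAddMonoidHom (α := H × K) p).ker l _ _ ?_ ?_ h1
  · intro g
    rw [mem_filter, AddMonoidHom.mem_ker, nsmulAddMonoidHom_apply]
    exact ⟨fun h => h.2, fun h => ⟨mem_univ _, h⟩⟩
  · intro g
    rw [mem_filter, AddMonoidHom.mem_ker, nsmulAddMonoidHom_apply]
    exact ⟨fun h => h.2, fun h => ⟨mem_univ _, h⟩⟩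

theorem energy (D : D2 p s t u f) (l : H × K →+ ZMod p) (hl : ¬ Van l) :
    p * ∑ v ∈ PG p H K, ∑ c : ZMod p, ((sl p f v).filter fun x => l (gr f x) = c).card ^ 2 +
      p * (univ.filter fun k : K => p • k = 0 ∧ l (0, k) = 0).card =
        p * p ^ (2 * s) + p ^ (3 * s) := by
  have h1 := dis_pairs (p := p) (f := f) l
  have h2 := dis_off D l
  have h3 := dis_split (p := p) (H := H) (K := K) l
  have h4 := dis_kerG D l hl
  rw [h1, h2, mul_add, add_assoc, ← mul_add, h3, h4]

theorem kerK (D : D2 p s t u f) (l : H × K →+ ZMod p) :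
    p ^ (s + u) ≤ p * (univ.filter fun k : K => p • k = 0 ∧ l (0, k) = 0).card := by
  rw [← D.card_pK 0]
  refine dis_ker_le' (nsmulAddMonoidHom (α := K) p).ker (l.comp (AddMonoidHom.inr H K)) _ _ ?_ ?_
  · intro g
    rw [mem_filter, AddMonoidHom.mem_ker, nsmulAddMonoidHom_apply, smul_zero]
    exact ⟨fun h => h.2, fun h => ⟨mem_univ _, h⟩⟩
  · intro g
    rw [mem_filter, AddMonoidHom.mem_ker, nsmulAddMonoidHom_apply, AddMonoidHom.comp_apply,
      AddMonoidHom.inr_apply]
    exact ⟨fun h => h.2, fun h => ⟨mem_univ _, h⟩⟩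

theorem equi_of_cst (D : D2 p s t u f) {v : H × K} (hv : v ∈ PG p H K)
    (hn : (sl p f v).card = p ^ s) {l : H × K →+ ZMod p} (hl : ¬ Van l)
    (hc : Cst (gr f) (sl p f v) l) {v' : H × K} (hv' : v' ∈ PG p H K) (hne : v' ≠ v) :
    Equi (gr f) (sl p f v') l := by
  -- the defect in the inequality of Cauchy
  let E : H × K → ℤ := fun w => (p : ℤ) * ∑ c : ZMod p,
    ((((sl p f w).filter fun x => l (gr f x) = c).card : ℕ) : ℤ) ^ 2 - ((sl p f w).card : ℤ) ^ 2
  have hE : ∀ w : H × K, ∑ c : ZMod p,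
      ((p : ℤ) * (((sl p f w).filter fun x => l (gr f x) = c).card : ℕ) -
        ((sl p f w).card : ℤ)) ^ 2 = (p : ℤ) * E w := by
    intro w
    have h1 : ∑ c : ZMod p, ((((sl p f w).filter fun x => l (gr f x) = c).card : ℕ) : ℤ) =
        ((sl p f w).card : ℤ) := by
      rw [← Nat.cast_sum]
      refine congrArg Nat.cast ?_
      exact (card_eq_sum_card_fiberwise (f := fun x => l (gr f x)) (s := sl p f w)
        (t := (univ : Finset (ZMod p))) (fun _ _ => mem_coe.2 (mem_univ _))).symm
    have h2 : ∀ c : ZMod p, ((p : ℤ) * (((sl p f w).filter fun x => l (gr f x) = c).card : ℕ) -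
        ((sl p f w).card : ℤ)) ^ 2 =
        (p : ℤ) ^ 2 * ((((sl p f w).filter fun x => l (gr f x) = c).card : ℕ) : ℤ) ^ 2 -
        2 * p * ((sl p f w).card : ℤ) *
          ((((sl p f w).filter fun x => l (gr f x) = c).card : ℕ) : ℤ) +
        ((sl p f w).card : ℤ) ^ 2 := by
      intro c
      ring
    rw [sum_congr rfl fun c _ => h2 c, sum_add_distrib, sum_sub_distrib, ← mul_sum, ← mul_sum, h1,
      sum_const, card_univ, ZMod.card, nsmul_eq_mul]
    simp only [E]
    ring
  have hp : (0 : ℤ) < p := by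
    have := D.hp
    have h5 : 0 < p := by omega
    exact_mod_cast h5
  have hE0 : ∀ w : H × K, 0 ≤ E w := by
    intro w
    have h1 := hE w
    have h2 : 0 ≤ (p : ℤ) * E w := by
      rw [← h1]
      exact sum_nonneg fun c _ => sq_nonneg _
    exact nonneg_of_mul_nonneg_right h2 hp
  -- the sum of the defects
  have hsum : ∑ w ∈ PG p H K, E w ≤ ((p : ℤ) - 1) * (p : ℤ) ^ (2 * s) := by
    have h1 := energy D l hl
    have h2 := kerK D l
    have h3 := D.sum_sq
    have h1' : (p : ℤ) * ∑ v ∈ PG p H K, ∑ c : ZMod p,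
        ((((sl p f v).filter fun x => l (gr f x) = c).card : ℕ) : ℤ) ^ 2 +
        p * ((univ.filter fun k : K => p • k = 0 ∧ l (0, k) = 0).card : ℕ) =
        p * (p : ℤ) ^ (2 * s) + (p : ℤ) ^ (3 * s) := by
      exact_mod_cast h1
    have h2' : (p : ℤ) ^ (s + u) ≤
        p * ((univ.filter fun k : K => p • k = 0 ∧ l (0, k) = 0).card : ℕ) := by
      exact_mod_cast h2
    have h3' : ∑ v ∈ PG p H K, ((sl p f v).card : ℤ) ^ 2 + (p : ℤ) ^ (s + u) =
        (p : ℤ) ^ (2 * s) + (p : ℤ) ^ (3 * s) := by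
      exact_mod_cast h3
    have h4 : ∑ w ∈ PG p H K, E w = (p : ℤ) * ∑ v ∈ PG p H K, ∑ c : ZMod p,
        ((((sl p f v).filter fun x => l (gr f x) = c).card : ℕ) : ℤ) ^ 2 -
        ∑ v ∈ PG p H K, ((sl p f v).card : ℤ) ^ 2 := by
      simp only [E]
      rw [sum_sub_distrib, mul_sum]
    rw [h4]
    linarith
  -- the slice `v`
  have hv1 : ((p : ℤ) - 1) * (p : ℤ) ^ (2 * s) ≤ E v := by
    have hpos : 0 < (sl p f v).card := by
      rw [hn]
      exact pow_pos (by have := D.hp; omega) _
    obtain ⟨x0, hx0⟩ := card_pos.1 hpos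
    have h1 : (sl p f v).filter (fun x => l (gr f x) = l (gr f x0)) = sl p f v := by
      refine filter_eq_self.2 fun x hx => hc x hx x0 hx0
    have h2 : (((sl p f v).filter fun x => l (gr f x) = l (gr f x0)).card : ℤ) ^ 2 ≤
        ∑ c : ZMod p, ((((sl p f v).filter fun x => l (gr f x) = c).card : ℕ) : ℤ) ^ 2 :=
      single_le_sum (f := fun c : ZMod p =>
        ((((sl p f v).filter fun x => l (gr f x) = c).card : ℕ) : ℤ) ^ 2)
        (fun c _ => sq_nonneg _) (mem_univ _)
    rw [h1, hn] at h2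
    have h3 : (((p ^ s : ℕ) : ℤ)) ^ 2 = (p : ℤ) ^ (2 * s) := by
      push_cast
      ring
    rw [h3] at h2
    simp only [E]
    rw [hn, h3]
    have h4 := mul_le_mul_of_nonneg_left h2 hp.le
    linarith
  -- all other defects vanish
  have hz : E v' = 0 := by
    have h1 : ∑ w ∈ ({v, v'} : Finset (H × K)), E w ≤ ∑ w ∈ PG p H K, E w := by
      refine sum_le_sum_of_subset_of_nonneg ?_ fun w _ _ => hE0 w
      intro w hw
      rw [mem_insert, mem_singleton] at hw
      rcases hw with rfl | rfl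
      · exact hv
      · exact hv'
    rw [sum_pair hne.symm] at h1
    have h2 := hE0 v'
    linarith
  have h1 := hE v'
  rw [hz, mul_zero, sum_eq_zero_iff_of_nonneg (fun c _ => sq_nonneg _)] at h1
  intro c
  have h2 := h1 c (mem_univ _)
  have h3 := pow_eq_zero_iff (two_ne_zero) |>.1 h2
  have h4 : (p : ℤ) * (((sl p f v').filter fun x => l (gr f x) = c).card : ℕ) =
      ((sl p f v').card : ℤ) := by linarith
  exact_mod_cast h4

end Pool.Agent.H77.EV
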