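import Pool.Agent.H77.EV.Lin
import Pool.Agent.H88.EV.Cnt
import Pool.Agent.H77.EV.Dis

/-!
# EV Ine: copy of Pool/Agent/H88/EV/Ine.lean (see the comments there) for `2 s + 1 ≤ p`
-/

set_option autoImplicit false

namespace Pool.Agent.H77.EV

open Finset Pool.Agent.H16.RB Pool.Agent.H88.Pl Pool.Agent.H88.E7 Pool.Agent.H88.EV
open scoped Classical

variable {p s t u : ℕ} [Fact p.Prime] {H K : Type*} [AddCommGroup H] [AddCommGroup K] [Fintype H]
  [Fintype K] {f : H → K}

private theorem Ine_range (D : D2 p s t u f) :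
    Nat.card (Set.range fun g : H × K => p • g) = p ^ s := by
  rw [← D.card_PG, Nat.card_coe_set_eq, ← Set.ncard_coe_finset]
  congr 1
  ext g
  simp [PG]

private theorem Ine_dual (D : D2 p s t u f) [Fintype (H × K →+ ZMod p)] :
    Fintype.card (H × K →+ ZMod p) = p ^ (3 * s) := by
  have h := card_hom (p := p) (G := H × K)
  rw [Ine_range D, Nat.card_prod, Nat.card_eq_fintype_card, Nat.card_eq_fintype_card,
    Nat.card_eq_fintype_card, D.hH, D.hK] at h
  have hp : 0 < p ^ s := pow_pos (by have := D.hp; omega) _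
  refine Nat.eq_of_mul_eq_mul_right hp ?_
  rw [h, ← pow_add, ← pow_add]
  congr 1
  omega

private theorem Ine_van (D : D2 p s t u f) [Fintype (H × K →+ ZMod p)] :
    ((univ : Finset (H × K →+ ZMod p)).filter fun l => Van l).card = p ^ s := by
  rw [← Ine_range D, ← card_hom0 (p := p) (G := H × K) (fun g => D.h2 g),
    Nat.card_eq_fintype_card, Fintype.card_subtype]
  refine congrArg card ?_
  ext l
  rw [mem_filter, mem_filter]
  rfl

private theorem Ine_van_cst {l : H × K →+ ZMod p} (hl : Van l) (v : H × K) :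
    Cst (gr f) (sl p f v) l := by
  intro x hx x' hx'
  have h1 := hl (gr f x - gr f x') (by
    rw [smul_sub, W2b.mem_sl.1 hx, W2b.mem_sl.1 hx', sub_self])
  rwa [map_sub, sub_eq_zero] at h1

omit [Fintype K] in
private theorem Ine_not {v : H × K} {l : H × K →+ ZMod p} (h0 : 0 < (sl p f v).card)
    (h1 : Cst (gr f) (sl p f v) l) (h2 : Equi (gr f) (sl p f v) l) : False := by
  have : Nontrivial (ZMod p) := ZMod.nontrivial_iff.2 (Fact.out (p := p.Prime)).one_lt.ne'
  obtain ⟨x, hx⟩ := card_pos.1 h0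
  have h3 := h2 (l (gr f x) + 1)
  have h4 : ((sl p f v).filter fun x' => l (gr f x') = l (gr f x) + 1) = ∅ := by
    refine filter_eq_empty_iff.2 fun x' hx' h => ?_
    rw [h1 x' hx' x hx] at h
    exact one_ne_zero (left_eq_add.1 h)
  rw [h4, card_empty, mul_zero] at h3
  omega

private theorem Ine_P2 (D : D2 p s t u f) {w : H × K} (hw : w ∈ PG p H K)
    (hlt : (sl p f w).card < p ^ s) :
    p * (sl p f w).card ≤ (P2 p (gr f) (sl p f w)).card := by
  rw [card_eq_sum_card_fiberwise (f := Prod.snd) (t := sl p f w)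
    (s := P2 p (gr f) (sl p f w)), mul_comm, ← smul_eq_mul]
  · apply card_nsmul_le_sum
    intro x hx
    have h1 := Nat.le_of_dvd (W2b.pos_of_mem hx)
      (cls_dvd D.hs D.h3 (gr f) (sl p f w) (D.kills w hw) hlt x hx)
    refine h1.trans ?_
    rw [← card_image_of_injective (f := fun x' => (x', x)) (cls p (gr f) (sl p f w) (gr f x))
      (fun a b hab => (Prod.mk.inj hab).1)]
    apply card_le_card
    intro z hz
    obtain ⟨x', hx', rfl⟩ := mem_image.1 hz
    rw [cls, mem_filter] at hx'
    rw [mem_filter, P2, mem_filter, mem_product]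
    exact ⟨⟨⟨hx'.1, hx⟩, hx'.2⟩, rfl⟩
  · intro z hz
    rw [mem_coe, P2, mem_filter, mem_product] at hz
    exact mem_coe.2 hz.1.2

theorem small_ge (D : D2 p s t u f) {w : H × K} (hw : w ∈ PG p H K)
    (hlt : (sl p f w).card < p ^ s) (h0 : 0 < (sl p f w).card) :
    p ^ (2 * s + 1) + (sl p f w).card * p ^ t ≤ (sl p f w).card * (p ^ s + p ^ (s + t)) := by
  have hpp : p.Prime := Fact.out
  have : NeZero p := ⟨hpp.ne_zero⟩
  have : Finite (H × K →+ ZMod p) :=
    Finite.of_injective (fun m => (m : H × K → ZMod p)) DFunLike.coe_injective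
  have : Fintype (H × K →+ ZMod p) := Fintype.ofFinite _
  have hP : 0 < p ^ s := pow_pos hpp.pos _
  -- good slices
  set Good : Finset (H × K) := (PG p H K).filter fun v => v.1 ≠ w.1 with hGood
  have hG1 : Good.card + p ^ t = p ^ s := by
    obtain ⟨g, -, hg⟩ := mem_image.1 hw
    have h1 := (D.sum_fst g.1).2
    have hg1 : p • g.1 = w.1 := by rw [← hg]; rfl
    rw [hg1] at h1
    have h2 := card_filter_add_card_filter_not (s := PG p H K) (fun v : H × K => v.1 = w.1)
    rw [h1, D.card_PG] at h2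
    rw [← h2, add_comm]
  have hgood : ∀ v ∈ Good, v ∈ PG p H K ∧ v.1 ≠ w.1 ∧ (sl p f v).card = p ^ s := by
    intro v hv
    rw [hGood, mem_filter] at hv
    exact ⟨hv.1, hv.2, D.good v w hv.1 hw hlt hv.2⟩
  -- functionals constant on a good slice
  set B : H × K → Finset (H × K →+ ZMod p) := fun v =>
    (univ.filter fun l => Cst (gr f) (sl p f v) l).filter fun l => ¬ Van l with hB
  have hB1 : ∀ v ∈ Good, (B v).card + p ^ s = p ^ (2 * s) := by
    intro v hv
    obtain ⟨hv1, hv2, hv3⟩ := hgood v hv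
    have hone := D.cls_one v hv1 hv3
    have h1 := card_cst (s := s) (gr f) (sl p f v) hv3 hone
      (dich D.hp D.hs D.h3 (gr f) (sl p f v) (D.kills v hv1) hv3 hone)
    rw [Ine_dual D] at h1
    have h2 : ((univ : Finset (H × K →+ ZMod p)).filter
        fun l => Cst (gr f) (sl p f v) l).card = p ^ (2 * s) := by
      refine Nat.eq_of_mul_eq_mul_right hP ?_
      rw [h1, ← pow_add]
      congr 1
      omega
    have h3 := card_filter_add_card_filter_not
      (s := (univ : Finset (H × K →+ ZMod p)).filter fun l => Cst (gr f) (sl p f v) l)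
      (fun l => Van l)
    have h4 : ((univ : Finset (H × K →+ ZMod p)).filter
        fun l => Cst (gr f) (sl p f v) l).filter (fun l => Van l) =
        (univ : Finset (H × K →+ ZMod p)).filter fun l => Van l := by
      ext l
      rw [mem_filter, mem_filter, mem_filter]
      exact ⟨fun h => ⟨h.1.1, h.2⟩, fun h => ⟨⟨h.1, Ine_van_cst h.2 v⟩, h.2⟩⟩
    rw [h4, Ine_van D, h2] at h3
    rw [← h3, add_comm]
  have hBeq : ∀ v ∈ Good, ∀ v' ∈ PG p H K, v' ≠ v → ∀ l ∈ B v, Equi (gr f) (sl p f v') l := by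
    intro v hv v' hv' hne l hl
    obtain ⟨hv1, hv2, hv3⟩ := hgood v hv
    rw [hB, mem_filter, mem_filter] at hl
    exact equi_of_cst D hv1 hv3 hl.2 hl.1.2 hv' hne
  have hdis : ∀ v ∈ Good, ∀ v' ∈ Good, v ≠ v' → Disjoint (B v) (B v') := by
    intro v hv v' hv' hne
    rw [disjoint_left]
    intro l hl hl'
    obtain ⟨hv1', hv2', hv3'⟩ := hgood v' hv'
    have h1 := hBeq v hv v' hv1' (Ne.symm hne) l hl
    rw [hB, mem_filter, mem_filter] at hl'
    exact Ine_not (by rw [hv3']; exact hP) hl'.1.2 h1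
  set A : Finset (H × K →+ ZMod p) := Good.biUnion B with hA
  have hAc : A.card + Good.card * p ^ s = Good.card * p ^ (2 * s) := by
    rw [hA, card_biUnion hdis, ← smul_eq_mul (Good.card), ← sum_const, ← sum_add_distrib,
      sum_congr rfl hB1, sum_const, smul_eq_mul]
  have hge := equi_ge (gr f) (sl p f w) A (by
    intro l hl
    obtain ⟨v, hv, hlv⟩ := mem_biUnion.1 hl
    refine hBeq v hv w hw ?_ l hlv
    rintro rfl
    exact (hgood _ hv).2.1 rfl)
  have hP2 := Ine_P2 D hw hlt
  rw [Ine_dual D] at hge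
  -- arithmetic
  have e1 : p ^ (2 * s + 1) = p * (p ^ s) ^ 2 := by ring
  have e2 : p ^ (s + t) = p ^ s * p ^ t := by ring
  have e3 : p ^ (2 * s) = (p ^ s) ^ 2 := by ring
  have e4 : p ^ (3 * s) = (p ^ s) ^ 3 := by ring
  rw [e3] at hAc
  rw [e4] at hge
  rw [e1, e2]
  generalize p ^ s = P at *
  generalize p ^ t = T at *
  generalize (sl p f w).card = m at *
  generalize (P2 p (gr f) (sl p f w)).card = X at *
  generalize Good.card = G0 at *
  generalize A.card = a at *
  zify at *
  have f1 : (a : ℤ) = (P - T) * (P ^ 2 - P) := by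
    have : (G0 : ℤ) = P - T := by linarith
    rw [this] at hAc
    linarith
  have f2 : (P : ℤ) * m * (P ^ 2 * p) ≤ P * m * (m * (P + P * T - T)) := by
    have f3 : (P : ℤ) ^ 3 * (p * m) ≤ P ^ 3 * X := mul_le_mul_of_nonneg_left hP2 (by positivity)
    rw [f1] at hge
    nlinarith
  have f4 : (P : ℤ) ^ 2 * p ≤ m * (P + P * T - T) := le_of_mul_le_mul_left f2 (by positivity)
  linarith

end Pool.Agent.H77.EV
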