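import Pool.Agent.H16.RB.Polar
import Pool.Agent.H16.RB.LineSum

/-!
# EV Line (helper77): the sum of the lifts on a line, by lacunary polynomials

`h : ZMod p → ℕ` of degree exactly `k ≥ 1` modulo `p`, `2 k + 3 ≤ p`: then `∑ h > p`.
The sum is positive and divisible by `p`.  Suppose that it is `p`; `F = ∏ (X - t) ^ h t` is monic of degree `p`, `F' (X ^ p - X) = F W` with
`W = ∑ h t (X ^ p - X) / (X - t)`, `W(t) = - h t`, so `W` is minus the polynomial of `h` and has degree `k`.  So `F'` has degree at most `k`, `F = X ^ p + R`, `deg R ≤ k + 1`, and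
`(F' - W) X ^ p = F' X + W R` has degree at most `2 k + 1 < p`: `W = F'`, `F' (X + R) = 0`, and `F' = 0` or `R = - X` contradict `deg W = k ≥ 1`.
-/

set_option autoImplicit false

namespace Pool.Agent.H77.EV

open Finset Polynomial Pool.Agent.H16.RB

private theorem Line_prod {p : ℕ} [Fact p.Prime] :
    ∏ t : ZMod p, (X - C t) = (X ^ p - X : (ZMod p)[X]) := by
  have hp : p.Prime := Fact.out
  have h1 := FiniteField.roots_X_pow_card_sub_X (ZMod p)
  rw [ZMod.card] at h1
  have hm : (X ^ p - X : (ZMod p)[X]).Monic := by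
    refine monic_X_pow_sub ?_
    rw [degree_X]
    exact_mod_cast hp.one_lt
  have hd : (X ^ p - X : (ZMod p)[X]).natDegree = p :=
    FiniteField.X_pow_card_sub_X_natDegree_eq (ZMod p) hp.one_lt
  have h2 := prod_multiset_X_sub_C_of_monic_of_roots_card_eq hm (by
    rw [h1, hd]
    exact ZMod.card p)
  rw [h1] at h2
  exact h2

/-- a fully reducible polynomial with few terms (Rédei) -/
theorem redei {p k : ℕ} [Fact p.Prime] (hk1 : 1 ≤ k) (hk : 2 * k + 3 ≤ p) (h : ZMod p → ℕ)
    (hsum : ∑ t, h t = p) (P : (ZMod p)[X]) (hPk : P.natDegree = k)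
    (hev : ∀ t, P.eval t = (h t : ZMod p)) : False := by
  classical
  have hp : p.Prime := Fact.out
  set F : (ZMod p)[X] := ∏ t, (X - C t) ^ h t with hF
  have hFm : F.Monic := monic_prod_of_monic _ _ fun t _ => (monic_X_sub_C t).pow _
  have hFd : F.natDegree = p := by
    rw [hF, natDegree_prod_of_monic _ _ fun t _ => (monic_X_sub_C t).pow _]
    refine Eq.trans (sum_congr rfl fun t _ => ?_) hsum
    rw [natDegree_pow, natDegree_X_sub_C, mul_one]
  set Q : ZMod p → (ZMod p)[X] := fun t => ∏ s ∈ univ.erase t, (X - C s) with hQ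
  have hQt : ∀ t, (X - C t) * Q t = (X ^ p - X : (ZMod p)[X]) := by
    intro t
    rw [← Line_prod, hQ]
    exact mul_prod_erase univ (fun s : ZMod p => (X - C s : (ZMod p)[X])) (mem_univ t)
  set W : (ZMod p)[X] := ∑ t, C ((h t : ℕ) : ZMod p) * Q t with hW
  have hFW : derivative F * (X ^ p - X) = F * W := by
    rw [hF, derivative_prod_finset, sum_mul, hW, mul_sum]
    refine sum_congr rfl fun t _ => ?_
    rw [derivative_X_sub_C_pow, ← hQt t]
    rcases Nat.eq_zero_or_pos (h t) with h0 | h0
    · rw [h0]
      simp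
    · have h1 : (X - C t : (ZMod p)[X]) ^ (h t - 1) * (X - C t) = (X - C t) ^ h t := by
        rw [← pow_succ, Nat.sub_add_cancel h0]
      have h2 : (X - C t : (ZMod p)[X]) ^ h t * ∏ a ∈ univ.erase t, (X - C a) ^ h a =
          ∏ a, (X - C a) ^ h a :=
        mul_prod_erase univ (fun s : ZMod p => (X - C s : (ZMod p)[X]) ^ h s) (mem_univ t)
      rw [← h2, ← h1]
      ring
  have hQev : ∀ t, (Q t).eval t = -1 := by
    intro t
    have h1 := congrArg (fun f => (derivative f).eval t) (hQt t)
    simp only [derivative_mul, derivative_sub, derivative_X, derivative_C, eval_add, eval_mul,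
      eval_sub, eval_X, eval_C, sub_zero, one_mul, sub_self, zero_mul, add_zero,
      derivative_X_pow, CharP.cast_eq_zero, eval_one, zero_sub, eval_pow] at h1
    exact h1
  have hWev : ∀ t, W.eval t = -(h t : ZMod p) := by
    intro t
    rw [hW, eval_finsetSum, sum_eq_single t]
    · rw [eval_mul, eval_C, hQev]
      ring
    · intro s _ hst
      rw [eval_mul, hQ]
      show _ * eval t (∏ r ∈ univ.erase s, (X - C r)) = 0
      rw [eval_prod, prod_eq_zero (i := t) (mem_erase.2 ⟨hst.symm, mem_univ t⟩) (by simp),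
        mul_zero]
    · intro h1
      exact (h1 (mem_univ t)).elim
  have hWP : W = -P := by
    refine eq_of_degree_sub_lt_of_eval_finset_eq (univ : Finset (ZMod p)) ?_ fun t _ => ?_
    · rw [card_univ, ZMod.card]
      refine lt_of_le_of_lt (degree_le_of_natDegree_le (n := p - 1) ?_) ?_
      · rw [sub_neg_eq_add]
        refine natDegree_add_le_of_degree_le ?_ (by rw [hPk]; omega)
        refine natDegree_sum_le_of_forall_le _ _ fun t _ => ?_
        refine (natDegree_C_mul_le _ _).trans ?_
        refine (natDegree_prod_le _ _).trans ?_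
        refine (sum_le_card_nsmul _ _ 1 fun s _ => natDegree_X_sub_C_le _).trans ?_
        rw [card_erase_of_mem (mem_univ t), card_univ, ZMod.card, smul_eq_mul, mul_one]
      · have := hp.pos
        exact_mod_cast (by omega : p - 1 < p)
    · rw [hWev, eval_neg, hev]
  have hWd : W.natDegree = k := by rw [hWP, natDegree_neg, hPk]
  have hW0 : W ≠ 0 := by
    intro h0
    rw [h0, natDegree_zero] at hWd
    omega
  have hXd : (X ^ p - X : (ZMod p)[X]).natDegree = p :=
    FiniteField.X_pow_card_sub_X_natDegree_eq (ZMod p) hp.one_lt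
  have hX0 : (X ^ p - X : (ZMod p)[X]) ≠ 0 :=
    FiniteField.X_pow_card_sub_X_ne_zero (ZMod p) hp.one_lt
  have hF0 : derivative F ≠ 0 := by
    intro h0
    rw [h0, zero_mul] at hFW
    exact mul_ne_zero hFm.ne_zero hW0 hFW.symm
  have hF'd : (derivative F).natDegree = k := by
    have h1 := congrArg natDegree hFW
    rw [natDegree_mul hF0 hX0, natDegree_mul hFm.ne_zero hW0, hXd, hFd, hWd] at h1
    omega
  set R : (ZMod p)[X] := F - X ^ p with hR
  have hRd : R.natDegree ≤ k + 1 := by
    rw [natDegree_le_iff_coeff_eq_zero]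
    intro n hn
    rw [hR, coeff_sub, coeff_X_pow]
    rcases lt_trichotomy n p with h1 | h1 | h1
    · rw [if_neg h1.ne, sub_zero]
      have h2 : (derivative F).coeff (n - 1) = 0 :=
        coeff_eq_zero_of_natDegree_lt (by rw [hF'd]; omega)
      rw [coeff_derivative, Nat.sub_add_cancel (by omega)] at h2
      have h3 : ((n - 1 : ℕ) : ZMod p) + 1 = (n : ZMod p) := by
        have h4 : n = (n - 1) + 1 := by omega
        conv_rhs => rw [h4]
        push_cast
        rfl
      rw [h3] at h2
      rcases mul_eq_zero.1 h2 with h5 | h5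
      · exact h5
      · rw [ZMod.natCast_eq_zero_iff] at h5
        have := Nat.le_of_dvd (by omega) h5
        omega
    · have h2 : F.coeff p = 1 := by
        have h3 := hFm.coeff_natDegree
        rwa [hFd] at h3
      rw [if_pos h1, h1, h2, sub_self]
    · rw [if_neg h1.ne', sub_zero]
      exact coeff_eq_zero_of_natDegree_lt (by rw [hFd]; exact h1)
  have hR' : derivative R = derivative F := by
    rw [hR, derivative_sub, derivative_X_pow]
    simp
  have hkey : (derivative F - W) * X ^ p = R * W + derivative F * X := by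
    have h1 : F = X ^ p + R := by rw [hR]; ring
    rw [h1] at hFW
    rw [h1]
    linear_combination hFW
  have hFW0 : derivative F - W = 0 := by
    by_contra h0
    have h1 := congrArg natDegree hkey
    rw [natDegree_mul h0 (pow_ne_zero _ X_ne_zero), natDegree_X_pow] at h1
    have h2 : (R * W + derivative F * X).natDegree ≤ 2 * k + 1 := by
      refine natDegree_add_le_of_degree_le ?_ ?_
      · refine natDegree_mul_le.trans ?_
        rw [hWd]
        omega
      · refine natDegree_mul_le.trans ?_
        rw [hF'd, natDegree_X]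
        omega
    omega
  have hWF : W = derivative F := (sub_eq_zero.1 hFW0).symm
  rw [hFW0, zero_mul, hWF] at hkey
  have hprod : derivative F * (R + X) = 0 := by
    rw [hkey]
    ring
  rcases mul_eq_zero.1 hprod with h1 | h1
  · exact hF0 h1
  · have h2 : R = -X := eq_neg_of_add_eq_zero_left h1
    rw [h2, derivative_neg, derivative_X] at hR'
    rw [← hR', natDegree_neg, natDegree_one] at hF'd
    omega

private theorem Line_iter {F : Type*} [Field F] (k : ℕ) (g : F → F) (x : F) :
    diffs (List.replicate k (1 : F)) g x = (fwdDiff (1 : F))^[k] g x := by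
  induction k generalizing x with
  | zero => rfl
  | succ k ih =>
    rw [List.replicate_succ, Function.iterate_succ_apply']
    show diffs (List.replicate k (1 : F)) g (x + 1) - diffs (List.replicate k (1 : F)) g x = _
    rw [ih, ih]
    rfl

private theorem Line_const {F : Type*} [Field F] (n : ℕ) (c : F) :
    (fwdDiff (1 : F))^[n + 1] (fun _ : F => c) = fun _ => 0 := by
  induction n with
  | zero =>
    rw [zero_add, Function.iterate_one]
    exact fwdDiff_const _ _
  | succ n ih =>
    rw [Function.iterate_succ_apply', ih]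
    exact fwdDiff_const _ _

private theorem Line_poly {p k : ℕ} [Fact p.Prime] (g : ZMod p → ZMod p) (c : ZMod p)
    (hc : c ≠ 0) (hd : ∀ x, (fwdDiff (1 : ZMod p))^[k] g x = c) :
    ∃ P : Polynomial (ZMod p), P.natDegree = k ∧ P ≠ 0 ∧ ∀ x, P.eval x = g x := by
  have hp : p.Prime := Fact.out
  set P : Polynomial (ZMod p) := Lagrange.interpolate univ id g with hP
  have hev : ∀ x, P.eval x = g x := fun x =>
    Lagrange.eval_interpolate_at_node g (Set.injOn_id _) (mem_univ x)
  have hfun : P.eval = g := funext hev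
  have hdeg : P.degree < (p : ℕ) := by
    have h1 := Lagrange.degree_interpolate_lt (s := (univ : Finset (ZMod p))) (v := id) g
      (Set.injOn_id _)
    rwa [card_univ, ZMod.card] at h1
  have hP0 : P ≠ 0 := by
    intro h0
    apply hc
    rw [← hd 0, ← hfun, h0]
    have h1 := fwdDiff_iter_eq_zero_of_degree_lt (R := ZMod p) (P := 0) (n := k + 1)
      (by simp)
    have h2 : (eval · (0 : Polynomial (ZMod p))) = fun _ => 0 := by
      funext x
      simp
    rw [h2]
    rcases k with _ | k
    · rfl
    · rw [Line_const]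
  have hnd : P.natDegree < p := (natDegree_lt_iff_degree_lt hP0).2 hdeg
  refine ⟨P, ?_, hP0, hev⟩
  rcases lt_trichotomy P.natDegree k with h | h | h
  · exfalso
    apply hc
    rw [← hd 0, ← hfun, fwdDiff_iter_eq_zero_of_degree_lt h]
    rfl
  · exact h
  · exfalso
    obtain ⟨m, hm⟩ : ∃ m, P.natDegree = m + 1 + k := ⟨P.natDegree - k - 1, by omega⟩
    have h1 := fwdDiff_iter_degree_eq_factorial P
    rw [hm, Function.iterate_add_apply, hfun, funext hd, Line_const] at h1
    have h2 := congrFun h1 0
    have h3 : ((m + 1 + k).factorial : ZMod p) ≠ 0 := by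
      intro h4
      rw [ZMod.natCast_eq_zero_iff, hp.dvd_factorial] at h4
      omega
    simp only [Pi.smul_apply, smul_eq_mul, Pi.natCast_apply] at h2
    exact mul_ne_zero (leadingCoeff_ne_zero.2 hP0) h3 h2.symm

/-- `line_sum` for `2 k + 3 ≤ p` -/
theorem line_sum' {p k : ℕ} [Fact p.Prime] (hk1 : 1 ≤ k) (hk : 2 * k + 3 ≤ p) (h : ZMod p → ℕ)
    (c : ZMod p) (hc : c ≠ 0)
    (hd : ∀ x, diffs (List.replicate k (1 : ZMod p)) (fun t => (h t : ZMod p)) x = c) :
    p < ∑ t, h t := by
  obtain ⟨P, hPk, hP0, hev⟩ := Line_poly (fun t => (h t : ZMod p)) c hc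
    (fun x => by rw [← Line_iter]; exact hd x)
  have hdvd : p ∣ ∑ t, h t := by
    rw [← ZMod.natCast_eq_zero_iff, Nat.cast_sum]
    have h1 : ∀ t : ZMod p, (h t : ZMod p) = ∑ i ∈ range (P.natDegree + 1), P.coeff i * t ^ i := by
      intro t
      rw [← eval_eq_sum_range, hev]
    rw [sum_congr rfl fun t _ => h1 t, sum_comm]
    refine sum_eq_zero fun i hi => ?_
    rw [mem_range, hPk] at hi
    rw [← mul_sum, FiniteField.sum_pow_lt_card_sub_one (ZMod p) i (by rw [ZMod.card]; omega),
      mul_zero]
  have hne : ∑ t, h t ≠ p := fun h0 => redei hk1 hk h h0 P hPk hev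
  have h0 : ∑ t, h t ≠ 0 := by
    intro h0
    rw [sum_eq_zero_iff] at h0
    apply hP0
    refine eq_zero_of_natDegree_lt_card_of_eval_eq_zero' P (univ : Finset (ZMod p))
      (fun t _ => ?_) ?_
    · rw [hev, h0 t (mem_univ t), Nat.cast_zero]
    · rw [card_univ, ZMod.card, hPk]
      omega
  have := Nat.le_of_dvd (Nat.pos_of_ne_zero h0) hdvd
  omega

end Pool.Agent.H77.EV
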