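import Pool.Agent.H77.EV.Line
import Pool.Agent.H16.RB.Push

/-!
# EV Push (helper77): `push_const` of Pool/Agent/H16/RB/Push.lean for `2 s + 1 ≤ p`

Copies of `const_of_small` and `push_const` with `line_sum'` instead of `line_sum`.
-/

set_option autoImplicit false

namespace Pool.Agent.H77.EV

open Finset Pool.Agent.H16.RB

private theorem Push_line {p : ℕ} [Fact p.Prime] {V : Type*} [AddCommGroup V]
    (hV : ∀ v : V, p • v = 0) (G : V → ZMod p) (x e : V) (k : ℕ) :
    ∀ t : ZMod p, diffs (List.replicate k (1 : ZMod p)) (fun t => G (x + t.val • e)) t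
      = diffs (List.replicate k e) G (x + t.val • e) := by
  induction k with
  | zero => intro t; rfl
  | succ k ih =>
    intro t
    have h1 : (t + 1).val • e = t.val • e + e := by
      rw [ZMod.val_add, ZMod.val_one'' (Fact.out : p.Prime).ne_one]
      have h2 := Nat.div_add_mod (t.val + 1) p
      have h3 : (t.val + 1) • e = ((t.val + 1) % p) • e := by
        conv_lhs => rw [← h2]
        rw [add_smul, mul_comm, mul_smul, hV, smul_zero, zero_add]
      rw [← h3, add_smul, one_smul]
    simp only [List.replicate_succ, Pool.Agent.H16.RB.diffs]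
    rw [ih, ih, h1, add_assoc]

theorem const_of_small' {p b : ℕ} [Fact p.Prime] (hb : 2 * b + 3 ≤ p) {V : Type*} [AddCommGroup V]
    [Fintype V] (hV : ∀ v : V, p • v = 0) (g : V → ℕ)
    (hg : ∀ L : List V, L.length = b + 1 → ∀ x, diffs L (fun z => (g z : ZMod p)) x = 0)
    (hs : ∑ z, g z ≤ Fintype.card V) (x y : V) : (g x : ZMod p) = (g y : ZMod p) := by
  classical
  set G : V → ZMod p := fun z => (g z : ZMod p) with hG
  have hex : ∃ k, ∀ L : List V, L.length = k + 1 → ∀ x, diffs L G x = 0 := ⟨b, hg⟩
  obtain ⟨k, hk, hmin⟩ : ∃ k, (∀ L : List V, L.length = k + 1 → ∀ x, diffs L G x = 0) ∧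
      ∀ j < k, ¬ (∀ L : List V, L.length = j + 1 → ∀ x, diffs L G x = 0) :=
    ⟨Nat.find hex, Nat.find_spec hex, fun j hj => Nat.find_min hex hj⟩
  have hkb : k ≤ b := by
    by_contra hcon
    exact hmin b (by omega) hg
  rcases Nat.eq_zero_or_pos k with hk0 | hkpos
  · subst hk0
    have h1 := hk [y - x] rfl x
    simp only [Pool.Agent.H16.RB.diffs] at h1
    rw [add_sub_cancel] at h1
    exact (sub_eq_zero.mp h1).symm
  · exfalso
    have hkp : k < p := by omega
    have h2 : ¬ ∀ (e : V) (x : V), diffs (List.replicate k e) G x = 0 := by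
      intro h2
      apply hmin (k - 1) (by omega)
      intro L hL x
      exact polar hkp G hk h2 L (by omega) x
    push Not at h2
    obtain ⟨e, x0, hc⟩ := h2
    have hconst : ∀ z, diffs (List.replicate k e) G z = diffs (List.replicate k e) G x0 := by
      intro z
      have h3 := hk ((z - x0) :: List.replicate k e) (by simp) x0
      simp only [Pool.Agent.H16.RB.diffs] at h3
      rw [add_sub_cancel] at h3
      exact sub_eq_zero.mp h3
    have hline : ∀ x : V, p < ∑ t : ZMod p, g (x + t.val • e) := by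
      intro x
      refine line_sum' hkpos (by omega) (fun t : ZMod p => g (x + t.val • e))
        (diffs (List.replicate k e) G x0) hc ?_
      intro t
      have h4 := Push_line hV G x e k t
      rw [hconst] at h4
      exact h4
    have hsum : ∑ x : V, ∑ t : ZMod p, g (x + t.val • e) = p * ∑ z, g z := by
      rw [Finset.sum_comm]
      have h5 : ∀ t : ZMod p, ∑ x : V, g (x + t.val • e) = ∑ z, g z := by
        intro t
        exact Fintype.sum_equiv (Equiv.addRight (t.val • e)) _ _ (fun z => rfl)
      rw [Finset.sum_congr rfl (fun t _ => h5 t), Finset.sum_const, Finset.card_univ,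
        ZMod.card, smul_eq_mul]
    have hlt : ∑ _x : V, p < ∑ x : V, ∑ t : ZMod p, g (x + t.val • e) :=
      Finset.sum_lt_sum_of_nonempty ⟨x0, Finset.mem_univ x0⟩ (fun x _ => hline x)
    rw [hsum, Finset.sum_const, Finset.card_univ, smul_eq_mul, mul_comm] at hlt
    exact absurd hlt (not_lt.mpr (Nat.mul_le_mul_left p hs))



private lemma Push_filter_eq {p s : ℕ} {X G : Type*} [AddCommGroup G] (y : X → G) (S : Finset X)
    (τ : Fin s → (G →+ ZMod p)) (z : Fin s → ZMod p) :
    (S.filter fun x => ∀ i, τ i (y x) = z i) = S.filter fun x => (fun i => τ i (y x)) = z := by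
  apply Finset.filter_congr
  intro x _
  exact funext_iff.symm

private lemma Push_sum_eq {p s : ℕ} [NeZero p] {X G : Type*} [AddCommGroup G] (y : X → G)
    (S : Finset X) (τ : Fin s → (G →+ ZMod p)) (φ : (Fin s → ZMod p) → ZMod p) :
    ∑ z, (((S.filter fun x => ∀ i, τ i (y x) = z i).card : ℕ) : ZMod p) * φ z =
      ∑ x ∈ S, φ (fun i => τ i (y x)) := by
  rw [← Finset.sum_fiberwise S (fun x => (fun i => τ i (y x))) (fun x => φ (fun i => τ i (y x)))]
  refine Finset.sum_congr rfl fun z _ => ?_
  rw [Push_filter_eq y S τ z]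
  have h : ∑ x ∈ S.filter (fun x => (fun i => τ i (y x)) = z), φ (fun i => τ i (y x)) =
      ∑ _x ∈ S.filter (fun x => (fun i => τ i (y x)) = z), φ z := by
    refine Finset.sum_congr rfl fun x hx => ?_
    rw [(Finset.mem_filter.mp hx).2]
  rw [h, Finset.sum_const, nsmul_eq_mul]

private lemma Push_card_eq {p s : ℕ} [NeZero p] {X G : Type*} [AddCommGroup G] (y : X → G)
    (S : Finset X) (τ : Fin s → (G →+ ZMod p)) :
    ∑ z : Fin s → ZMod p, (S.filter fun x => ∀ i, τ i (y x) = z i).card = S.card := by
  have h := Finset.card_eq_sum_card_fiberwise (s := S) (t := (Finset.univ : Finset (Fin s → ZMod p)))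
    (f := fun x => (fun i => τ i (y x))) (fun x _ => Finset.mem_coe.mpr (Finset.mem_univ _))
  rw [h]
  refine Finset.sum_congr rfl fun z _ => ?_
  rw [Push_filter_eq y S τ z]

theorem push_const' {p s : ℕ} [Fact p.Prime] (hs : 1 ≤ s) (h3 : 2 * s + 1 ≤ p) {X G : Type*}
    [AddCommGroup G] (y : X → G) (S : Finset X) (hK : Kills p y S (s * (p - 1) - s + 1))
    (hS : S.card ≤ p ^ s) (τ : Fin s → (G →+ ZMod p)) :
    (∀ z : Fin s → ZMod p, p ∣ (S.filter fun x => ∀ i, τ i (y x) = z i).card) ∨
      (S.card = p ^ s ∧ ∀ z : Fin s → ZMod p, (S.filter fun x => ∀ i, τ i (y x) = z i).card = 1) := by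
  have hp : p.Prime := Fact.out
  have hp2 : 2 ≤ p := hp.two_le
  have hcardV : Fintype.card (Fin s → ZMod p) = p ^ s := by
    rw [Fintype.card_fun, ZMod.card, Fintype.card_fin]
  have hsp : s ≤ s * (p - 1) := Nat.le_mul_of_pos_right s (by omega)
  have hn : (s * (p - 1) - s + 1) + (s - 1) = s * (p - 1) := by omega
  -- the counting function kills products of few affine functionals
  have hkill : ∀ L : List (((Fin s → ZMod p) →+ ZMod p) × ZMod p),
      L.length < s * (p - 1) - s + 1 →
      ∑ z, (((S.filter fun x => ∀ i, τ i (y x) = z i).card : ℕ) : ZMod p) *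
        (L.map fun l => l.1 z - l.2).prod = 0 := by
    intro L hL
    rw [Push_sum_eq y S τ (fun z => (L.map fun l => l.1 z - l.2).prod)]
    have h := hK (L.map fun l => (l.1.comp (AddMonoidHom.mk' (fun v : G => (fun i => τ i v))
      (fun a b => by funext i; simp)), l.2)) (by rw [List.length_map]; exact hL)
    rw [← h]
    refine Finset.sum_congr rfl fun x _ => ?_
    rw [List.map_map]
    rfl
  have hdiff : ∀ L : List (Fin s → ZMod p), L.length = (s - 1) + 1 → ∀ x,
      diffs L (fun z => (((S.filter fun x => ∀ i, τ i (y x) = z i).card : ℕ) : ZMod p)) x = 0 := by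
    intro L hL x
    exact deg_of_kills hn _ hkill L hL x
  have hsum : ∑ z : Fin s → ZMod p, (S.filter fun x => ∀ i, τ i (y x) = z i).card = S.card :=
    Push_card_eq y S τ
  have hconst : ∀ z w : Fin s → ZMod p,
      (((S.filter fun x => ∀ i, τ i (y x) = z i).card : ℕ) : ZMod p) =
        (((S.filter fun x => ∀ i, τ i (y x) = w i).card : ℕ) : ZMod p) := by
    intro z w
    refine const_of_small' (b := s - 1) (by omega) (V := Fin s → ZMod p) ?_
      (fun z => (S.filter fun x => ∀ i, τ i (y x) = z i).card) hdiff ?_ z w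
    · intro v
      funext i
      simp
    · rw [hsum, hcardV]
      exact hS
  by_cases h0 : (((S.filter fun x => ∀ i, τ i (y x) = (0 : Fin s → ZMod p) i).card : ℕ) : ZMod p) = 0
  · left
    intro z
    have h := hconst z 0
    rw [h0] at h
    exact (ZMod.natCast_eq_zero_iff _ _).mp h
  · right
    have hpos : ∀ z : Fin s → ZMod p, 1 ≤ (S.filter fun x => ∀ i, τ i (y x) = z i).card := by
      intro z
      rcases Nat.eq_zero_or_pos (S.filter fun x => ∀ i, τ i (y x) = z i).card with h | h
      · exfalso
        apply h0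
        rw [← hconst z 0, h, Nat.cast_zero]
      · exact h
    have hle : p ^ s ≤ S.card := by
      rw [← hsum, ← hcardV]
      calc Fintype.card (Fin s → ZMod p) = ∑ _z : Fin s → ZMod p, 1 := by simp
        _ ≤ _ := Finset.sum_le_sum fun z _ => hpos z
    have heq : S.card = p ^ s := le_antisymm hS hle
    refine ⟨heq, fun z => ?_⟩
    have h1 : ∑ _z : Fin s → ZMod p, 1 =
        ∑ z : Fin s → ZMod p, (S.filter fun x => ∀ i, τ i (y x) = z i).card := by
      rw [hsum, heq, ← hcardV]; simp
    exact ((Finset.sum_eq_sum_iff_of_le fun z _ => hpos z).mp h1 z (Finset.mem_univ z)).symm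

end Pool.Agent.H77.EV
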