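import Pool.Agent.H77.EV.Main

/-!
# EV Uni (helper77): `|p G| < p ^ (r / 2)` for all `r ≥ 3` and all primes `p ≥ r`
-/

set_option autoImplicit false

namespace Pool.Agent.H77.EV

open Pool.Agent.H88.Pl

theorem strict {p r : ℕ} [Fact p.Prime] (h3 : 3 ≤ r) (hpr : r ≤ p) {H K : Type*}
    [AddCommGroup H] [AddCommGroup K] (hH : Nat.card H = p ^ r) (hK : Nat.card K = p ^ r)
    (f : H → K) (hf : IsPlanar f) :
    Nat.card (Set.range fun g : H × K => p • g) < p ^ (r / 2) := by
  have hp : p.Prime := Fact.out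
  rcases Nat.even_or_odd' r with ⟨s, hs | hs⟩
  · have hne : p ≠ r := by
      rintro rfl
      have := hp.eq_one_or_self_of_dvd 2 ⟨s, hs⟩
      omega
    have h2 : r / 2 = s := by omega
    rw [h2]
    subst hs
    exact even_lt (by omega) (by omega) (by omega) hH hK f hf
  · have h2 : r / 2 = s := by omega
    rw [h2]
    subst hs
    exact Pool.Agent.H88.E7.odd_lt (by omega) (by omega) hH hK f hf

end Pool.Agent.H77.EV
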